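import Pool.Agent.MWGQ.StmtsD
import Pool.Agent.Helper36_MWGN.CMW

/-!
# MWGQ, row FFR: FB and I1 imply the fill identity for all words, period n

Twin of Helper36_MWGN/FFR.lean (helper36).
-/

set_option autoImplicit false

namespace Pool.Agent.MWGQ.H51

open Pool.Agent.Helper14_MV Pool.Agent.Helper2_MV
open Pool.Agent.MWGN (Nm Tau)
open Pool.Agent.MWGQ

section
variable {n : ℕ} {β : FIC}

theorem tr {a b c : List ℕ} (h : RR β a b) (h' : RR β b c) : RR β a c := β.trans h h'

/-- an identity in a context -/
theorem ctx {u v : List ℕ} (h : RR β u v) (p q : List ℕ) : RR β (p ++ (u ++ q)) (p ++ (v ++ q)) :=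
  (RR.refl p).append (h.append (RR.refl q))

theorem rr_flatMap {f g : ℕ → List ℕ} : ∀ (l : List ℕ), (∀ i ∈ l, RR β (f i) (g i)) →
    RR β (l.flatMap f) (l.flatMap g)
  | [], _ => RR.refl _
  | a :: l, h => by
    rw [List.flatMap_cons, List.flatMap_cons]
    exact (h a (by simp)).append (rr_flatMap l (fun i hi => h i (List.mem_cons_of_mem _ hi)))

theorem pw_succ (k : ℕ) (u : List ℕ) : pw (k + 1) u = u ++ pw k u := by
  unfold pw
  rw [List.replicate_succ, List.flatten_cons]

theorem pw_one (x : ℕ) : ∀ a : ℕ, pw a [x] = List.replicate a x
  | 0 => rfl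
  | a + 1 => by
    rw [pw_succ, pw_one x a, List.replicate_succ]
    rfl

theorem pw_rep (k m x : ℕ) : pw k (List.replicate m x) = List.replicate (k * m) x := by
  unfold pw
  rw [List.flatten_replicate_replicate]

/-- powers of a letter which occurs before -/
theorem pp (hP : PwxStmt) (hG : Gn n β) {A : List ℕ} {x : ℕ} (hx : x ∈ A) {a b : ℕ} (ha : 1 ≤ a)
    (hb : 1 ≤ b) (hab : a ≡ b [MOD n]) (R : List ℕ) :
    RR β (A ++ (List.replicate a x ++ R)) (A ++ (List.replicate b x ++ R)) := by
  obtain ⟨A₁, A₂, rfl⟩ := List.append_of_mem hx
  have h := (hP n β hG).2.1 [x] A₂ a b ha hb hab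
  rw [pw_one, pw_one] at h
  have := ctx h A₁ R
  simpa only [List.append_assoc, List.cons_append, List.nil_append] using this

theorem p2 (hP : PwxStmt) (hG : Gn n β) (x : ℕ) {a b : ℕ} (ha : 2 ≤ a)
    (hb : 2 ≤ b) (hab : a ≡ b [MOD n]) :
    RR β (List.replicate a x) (List.replicate b x) := by
  have h := (hP n β hG).1 [x] a b ha hb hab
  rw [pw_one, pw_one] at h
  exact h

theorem pcomm (hP : PwxStmt) (hG : Gn n β) (x y : ℕ) {a b : ℕ} (ha : 2 ≤ a) (hb : 2 ≤ b) :
    RR β (List.replicate a x ++ List.replicate b y) (List.replicate b y ++ List.replicate a x) := by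
  have h := (hP n β hG).2.2 [x] [y] a b ha hb
  rw [pw_one, pw_one] at h
  exact h

/-- a letter which occurs before may be replaced by its power -/
theorem dup (hP : PwxStmt) (hG : Gn n β) {A : List ℕ} {x : ℕ} (hx : x ∈ A) (R : List ℕ) :
    RR β (A ++ x :: R) (A ++ (List.replicate (n + 1) x ++ R)) :=
  pp hP hG hx (a := 1) (b := n + 1) (le_refl _) (by omega)
    (by
      show 1 % n = (n + 1) % n
      rw [Nat.add_mod_left]) R

/-- the powers of the letters -/
def D (n : ℕ) (u : List ℕ) : List ℕ := u.flatMap (fun a => List.replicate (n + 1) a)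

theorem D_cons (a : ℕ) (l : List ℕ) : D n (a :: l) = List.replicate (n + 1) a ++ D n l :=
  List.flatMap_cons

/-- a power commutes with such a word -/
theorem pD (hP : PwxStmt) (hG : Gn n β) {a : ℕ} (ha : 2 ≤ a) (x : ℕ) : ∀ u : List ℕ,
    RR β (List.replicate a x ++ D n u) (D n u ++ List.replicate a x)
  | [] => by
    have e : D n [] = [] := rfl
    rw [e, List.append_nil, List.nil_append]
    exact RR.refl _
  | b :: u => by
    have hn := hG.pos
    have h1 := (pcomm hP hG x b ha (b := n + 1) (by omega)).append (RR.refl (β := β) (D n u))
    have h2 := (RR.refl (β := β) (List.replicate (n + 1) b)).append (pD hP hG ha x u)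
    rw [D_cons]
    refine tr (b := List.replicate (n + 1) b ++ List.replicate a x ++ D n u) ?_ ?_
    · rw [← List.append_assoc]
      exact h1
    · rw [List.append_assoc, List.append_assoc]
      exact h2

theorem pwc {X Y : List ℕ} (h : RR β (X ++ Y) (Y ++ X)) : ∀ k : ℕ,
    RR β (Y ++ pw k X) (pw k X ++ Y)
  | 0 => by
    have e : pw 0 X = [] := rfl
    rw [e, List.append_nil, List.nil_append]
    exact RR.refl _
  | k + 1 => by
    rw [pw_succ]
    have h1 := (h.symm).append (RR.refl (β := β) (pw k X))
    have h2 := (RR.refl (β := β) X).append (pwc h k)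
    refine tr (b := X ++ Y ++ pw k X) ?_ ?_
    · rw [← List.append_assoc]
      exact h1
    · rw [List.append_assoc, List.append_assoc]
      exact h2

theorem pwm {X Y : List ℕ} (h : RR β (X ++ Y) (Y ++ X)) : ∀ k : ℕ,
    RR β (pw k (X ++ Y)) (pw k X ++ pw k Y)
  | 0 => RR.refl _
  | k + 1 => by
    rw [pw_succ, pw_succ, pw_succ]
    have h1 := (RR.refl (β := β) (X ++ Y)).append (pwm h k)
    have h2 := ctx (pwc h k) X (pw k Y)
    refine tr h1 ?_
    simpa only [List.append_assoc] using h2

/-- such words are idempotent -/
theorem D_idem (hP : PwxStmt) (hG : Gn n β) : ∀ u : List ℕ, RR β (D n u) (pw (n + 1) (D n u))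
  | [] => by
    have e : pw (n + 1) (D n []) = [] := by
      show (List.replicate (n + 1) ([] : List ℕ)).flatten = []
      simp
    rw [e]
    exact RR.refl _
  | a :: u => by
    have hn := hG.pos
    have h0 := pwm (pD hP hG (a := n + 1) (by omega) a u) (n + 1)
    rw [pw_rep] at h0
    have h1 : RR β (List.replicate (n + 1) a) (List.replicate ((n + 1) * (n + 1)) a) := by
      refine p2 hP hG a (by omega) (by nlinarith) ?_
      show (n + 1) % n = ((n + 1) * (n + 1)) % n
      rw [show (n + 1) * (n + 1) = 1 + n * (n + 2) by ring, Nat.add_mul_mod_self_left,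
        Nat.add_mod_left]
    have h2 := h1.append (D_idem hP hG u)
    rw [D_cons]
    exact tr h2 h0.symm

/-- a letter which occurs before, or later over multiple letters, may be replaced by its power -/
theorem double (hP : PwxStmt) (hG : Gn n β) (hI : MWZ.I1 n (RR β)) {A v R : List ℕ} {d : ℕ}
    (hd : d ∈ A ∨ d ∈ v) (hv : ∀ l ∈ v, 2 ≤ (A ++ d :: (v ++ R)).count l) :
    RR β (A ++ d :: (v ++ R)) (A ++ (List.replicate (n + 1) d ++ (v ++ R))) := by
  rcases hd with hd | hd
  · exact dup hP hG hd _
  · obtain ⟨c₁, c₂, hc⟩ := List.append_of_mem hd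
    have hI1 := hI A c₁ (c₂ ++ R) d (fun l hl => by
      have := hv l (by rw [hc]; exact List.mem_append_left _ hl)
      rw [hc] at this
      simpa only [List.append_assoc, List.cons_append] using this)
    rw [hc]
    simpa only [List.append_assoc, List.cons_append, List.nil_append] using hI1

/-- `z 0, D (u 0), z 1, D (u 1), ..` -/
def nf (n : ℕ) (z : ℕ → ℕ) (u : ℕ → List ℕ) (k : ℕ) : List ℕ :=
  (List.range k).flatMap (fun i => z i :: D n (u i))

theorem nf_cons (z : ℕ → ℕ) (u : ℕ → List ℕ) (k : ℕ) :
    nf n z u (k + 1) = z 0 :: D n (u 0) ++ nf n (fun i => z (i + 1)) (fun i => u (i + 1)) k := by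
  unfold nf
  rw [List.range_succ_eq_map, List.flatMap_cons, List.flatMap_map]

/-- `norm` for all larger left contexts -/
theorem normg (hP : PwxStmt) (hG : Gn n β) (hI : MWZ.I1 n (RR β)) (y : ℕ) (r : List ℕ) :
    ∀ (c A₀ : List ℕ), (∀ l ∈ c, 2 ≤ (A₀ ++ (c ++ y :: r)).count l) → y ∈ A₀ →
    ∃ (u₀ : List ℕ) (k : ℕ) (z : ℕ → ℕ) (u : ℕ → List ℕ),
      (∀ i < k, z i ∈ r ∧ z i ∉ A₀) ∧ (∀ i < k, ∀ j < k, z i = z j → i = j) ∧
        ∀ A : List ℕ, (∀ l, A₀.count l ≤ A.count l) →
          RR β (A ++ (c ++ y :: r)) (A ++ (D n u₀ ++ (nf n z u k ++ y :: r)))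
  | [], A₀, _, _ => ⟨[], 0, fun _ => 0, fun _ => [], fun i hi => by omega, fun i hi => by omega,
      fun A _ => RR.refl _⟩
  | d :: c, A₀, h, hy => by
    have hn := hG.pos
    by_cases hd : d ∈ A₀ ∨ d ∉ r
    · obtain ⟨u₀, k, z, u, h1, h2, h3⟩ := normg hP hG hI y r c (A₀ ++ [d, d]) (fun l hl => by
        have := h l (List.mem_cons_of_mem _ hl)
        simp only [List.count_append, List.count_cons, List.count_nil] at this ⊢
        omega) (List.mem_append_left _ hy)
      refine ⟨d :: u₀, k, z, u, fun i hi => ⟨(h1 i hi).1, fun hm =>
        (h1 i hi).2 (List.mem_append_left _ hm)⟩, h2, fun A hA => ?_⟩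
      have hd2 : d ∈ A ∨ d ∈ c := by
        by_cases hdA : d ∈ A₀
        · left
          have := hA d
          have := List.count_pos_iff.2 hdA
          exact List.count_pos_iff.1 (by omega)
        · right
          have hdr : d ∉ r := by
            rcases hd with hd | hd
            · exact absurd hd hdA
            · exact hd
          have hdy : d ≠ y := fun e => hdA (e ▸ hy)
          have hc2 := h d (by simp)
          by_contra hdc
          simp only [List.count_append, List.cons_append, List.count_cons_self,
            List.count_cons_of_ne (Ne.symm hdy), List.count_eq_zero_of_not_mem hdA,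
            List.count_eq_zero_of_not_mem hdr, List.count_eq_zero_of_not_mem hdc] at hc2
          omega
      have hdouble := double hP hG hI (R := y :: r) hd2 (fun l hl => by
        have h5 := h l (List.mem_cons_of_mem _ hl)
        have h6 := hA l
        simp only [List.count_append, List.cons_append, List.count_cons] at h5 ⊢
        omega)
      refine tr (by simpa only [List.cons_append] using hdouble) ?_
      have h4 := h3 (A ++ List.replicate (n + 1) d) (fun l => by
        have := hA l
        simp only [List.count_append, List.count_cons, List.count_nil, List.count_replicate]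
        split <;> omega)
      rw [D_cons]
      simpa only [List.append_assoc, List.cons_append, List.nil_append] using h4
    · rw [not_or, not_not] at hd
      obtain ⟨hdA, hdr⟩ := hd
      obtain ⟨u₀, k, z, u, h1, h2, h3⟩ := normg hP hG hI y r c (A₀ ++ [d]) (fun l hl => by
        have := h l (List.mem_cons_of_mem _ hl)
        simp only [List.count_append, List.cons_append, List.count_cons, List.count_nil] at this ⊢
        omega) (List.mem_append_left _ hy)
      refine ⟨[], k + 1, fun i => Nat.casesOn i d z, fun i => Nat.casesOn i u₀ u, ?_, ?_,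
        fun A hA => ?_⟩
      · intro i hi
        cases i with
        | zero => exact ⟨hdr, hdA⟩
        | succ i => exact ⟨(h1 i (by omega)).1, fun hm =>
            (h1 i (by omega)).2 (List.mem_append_left _ hm)⟩
      · intro i hi j hj e
        cases i with
        | zero =>
          cases j with
          | zero => rfl
          | succ j =>
            exact absurd (List.mem_append_right A₀ (by
              show z j ∈ [d]
              have e' : d = z j := e
              rw [e']
              simp)) (h1 j (by omega)).2
        | succ i =>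
          cases j with
          | zero =>
            exact absurd (List.mem_append_right A₀ (by
              show z i ∈ [d]
              have e' : z i = d := e
              rw [e']
              simp)) (h1 i (by omega)).2
          | succ j =>
            have := h2 i (by omega) j (by omega) e
            omega
      · have h4 := h3 (A ++ [d]) (fun l => by
          have := hA l
          simp only [List.count_append]
          omega)
        have e0 : D n [] = [] := rfl
        rw [nf_cons, e0]
        simp only [List.append_assoc, List.cons_append, List.nil_append] at h4 ⊢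
        exact h4

/-- the normal form with powers of `c` behind some of the words -/
def nfs (n c : ℕ) (s : ℕ → Bool) (z : ℕ → ℕ) (u : ℕ → List ℕ) (k : ℕ) : List ℕ :=
  (List.range k).flatMap
    (fun i => z i :: (D n (u i) ++ (if s i then List.replicate (2 * n) c else [])))

theorem nfs_cons (c : ℕ) (s : ℕ → Bool) (z : ℕ → ℕ) (u : ℕ → List ℕ) (k : ℕ) :
    nfs n c s z u (k + 1) = z 0 :: (D n (u 0) ++ (if s 0 then List.replicate (2 * n) c else [])) ++
      nfs n c (fun i => s (i + 1)) (fun i => z (i + 1)) (fun i => u (i + 1)) k := by
  unfold nfs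
  rw [List.range_succ_eq_map, List.flatMap_cons, List.flatMap_map]

theorem nfs_snoc (c : ℕ) (s : ℕ → Bool) (z : ℕ → ℕ) (u : ℕ → List ℕ) (k : ℕ) :
    nfs n c s z u (k + 1) = nfs n c s z u k ++
      z k :: (D n (u k) ++ (if s k then List.replicate (2 * n) c else [])) := by
  unfold nfs
  rw [List.range_succ, List.flatMap_append]
  simp

theorem nfs_false (c : ℕ) (z : ℕ → ℕ) (u : ℕ → List ℕ) (k : ℕ) :
    nfs n c (fun _ => false) z u k = nf n z u k := by
  unfold nfs nf
  simp

/-- normal forms of a word with and without an additional power of `c` -/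
theorem norm2 (hP : PwxStmt) (hG : Gn n β) (hI : MWZ.I1 n (RR β)) (c : ℕ) (w' q : List ℕ) :
    ∀ (w A₀ : List ℕ), (∀ l ∈ w ++ w', 2 ≤ (A₀ ++ (w ++ (w' ++ c :: q))).count l) → c ∈ A₀ →
    ∃ (u₀ : List ℕ) (k : ℕ) (z : ℕ → ℕ) (u : ℕ → List ℕ) (s₀ : Bool) (s : ℕ → Bool),
      (∀ i < k, z i ∈ q ∧ z i ∉ A₀) ∧ (∀ i < k, ∀ j < k, z i = z j → i = j) ∧
        ∀ A : List ℕ, (∀ l, A₀.count l ≤ A.count l) →
          RR β (A ++ (w ++ (w' ++ c :: q))) (A ++ (D n u₀ ++ (nf n z u k ++ c :: q))) ∧
          RR β (A ++ (w ++ (List.replicate n c ++ (w' ++ c :: q))))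
            (A ++ (D n u₀ ++ ((if s₀ then List.replicate (2 * n) c else []) ++
              (nfs n c s z u k ++ c :: q))))
  | [], A₀, h, hc => by
    have hn := hG.pos
    obtain ⟨u₀, k, z, u, h1, h2, h3⟩ := normg hP hG hI c q w' A₀ h hc
    refine ⟨u₀, k, z, u, true, fun _ => false, h1, h2, fun A hA => ⟨h3 A hA, ?_⟩⟩
    have hcA : c ∈ A := by
      have := hA c
      have := List.count_pos_iff.2 hc
      exact List.count_pos_iff.1 (by omega)
    have h4 := h3 (A ++ List.replicate n c) (fun l => by
      have := hA l
      simp only [List.count_append]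
      omega)
    rw [nfs_false, if_pos rfl]
    have h5 := pp hP hG hcA (a := n) (b := 2 * n) hn (by omega)
      (by
        show n % n = (2 * n) % n
        rw [Nat.mod_self, Nat.mul_mod_left]) (D n u₀ ++ (nf n z u k ++ c :: q))
    have h6 := ctx (pD hP hG (a := 2 * n) (by omega) c u₀) A (nf n z u k ++ c :: q)
    refine tr (b := A ++ (List.replicate n c ++ (D n u₀ ++ (nf n z u k ++ c :: q)))) ?_
      (tr h5 ?_)
    · simpa only [List.append_assoc, List.cons_append, List.nil_append] using h4
    · simpa only [List.append_assoc, List.cons_append, List.nil_append] using h6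
  | d :: w, A₀, h, hc => by
    have hn := hG.pos
    by_cases hd : d ∈ A₀ ∨ d ∉ q
    · obtain ⟨u₀, k, z, u, s₀, s, h1, h2, h3⟩ := norm2 hP hG hI c w' q w (A₀ ++ [d, d])
        (fun l hl => by
          have := h l (List.mem_cons_of_mem _ hl)
          simp only [List.count_append, List.cons_append, List.count_cons, List.count_nil]
            at this ⊢
          omega) (List.mem_append_left _ hc)
      refine ⟨d :: u₀, k, z, u, s₀, s, fun i hi => ⟨(h1 i hi).1, fun hm =>
        (h1 i hi).2 (List.mem_append_left _ hm)⟩, h2, fun A hA => ?_⟩
      have hcA : 0 < A.count c := by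
        have := hA c
        have := List.count_pos_iff.2 hc
        omega
      have hd2 : d ∈ A ∨ d ∈ w ++ w' := by
        by_cases hdA : d ∈ A₀
        · left
          have := hA d
          have := List.count_pos_iff.2 hdA
          exact List.count_pos_iff.1 (by omega)
        · right
          have hdr : d ∉ q := by
            rcases hd with hd | hd
            · exact absurd hd hdA
            · exact hd
          have hdy : d ≠ c := fun e => hdA (e ▸ hc)
          have hc2 := h d (by simp)
          by_contra hdc
          rw [List.mem_append, not_or] at hdc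
          simp only [List.count_append, List.cons_append, List.count_cons_self,
            List.count_cons_of_ne (Ne.symm hdy), List.count_eq_zero_of_not_mem hdA,
            List.count_eq_zero_of_not_mem hdr, List.count_eq_zero_of_not_mem hdc.1,
            List.count_eq_zero_of_not_mem hdc.2] at hc2
          omega
      have hd3 : d ∈ A ∨ d ∈ w ++ (List.replicate n c ++ w') := by
        rcases hd2 with h' | h'
        · exact Or.inl h'
        · right
          rcases List.mem_append.1 h' with h'' | h''
          · exact List.mem_append_left _ h''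
          · exact List.mem_append_right _ (List.mem_append_right _ h'')
      have hdouble1 := double hP hG hI (R := c :: q) hd2 (fun l hl => by
        have h5 := h l (List.mem_cons_of_mem _ hl)
        have h6 := hA l
        simp only [List.count_append, List.cons_append, List.count_cons] at h5 ⊢
        omega)
      have hdouble2 := double hP hG hI (R := c :: q) hd3 (fun l hl => by
        rcases List.mem_append.1 hl with h' | h'
        · have h5 := h l (List.mem_cons_of_mem _ (List.mem_append_left _ h'))
          have h6 := hA l
          simp only [List.count_append, List.cons_append, List.count_cons] at h5 ⊢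
          omega
        · rcases List.mem_append.1 h' with h' | h'
          · rw [List.eq_of_mem_replicate h']
            simp only [List.count_append, List.count_cons, beq_self_eq_true, if_true]
            omega
          · have h5 := h l (List.mem_cons_of_mem _ (List.mem_append_right _ h'))
            have h6 := hA l
            simp only [List.count_append, List.cons_append, List.count_cons] at h5 ⊢
            omega)
      obtain ⟨h4, h5⟩ := h3 (A ++ List.replicate (n + 1) d) (fun l => by
        have := hA l
        simp only [List.count_append, List.count_cons, List.count_nil, List.count_replicate]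
        split <;> omega)
      rw [D_cons]
      constructor
      · refine tr (b := A ++ (List.replicate (n + 1) d ++ (w ++ w' ++ c :: q))) ?_ ?_
        · simpa only [List.append_assoc, List.cons_append, List.nil_append] using hdouble1
        · simpa only [List.append_assoc, List.cons_append, List.nil_append] using h4
      · refine tr (b := A ++ (List.replicate (n + 1) d ++ (w ++ (List.replicate n c ++ w') ++
          c :: q))) ?_ ?_
        · simpa only [List.append_assoc, List.cons_append, List.nil_append] using hdouble2
        · simpa only [List.append_assoc, List.cons_append, List.nil_append] using h5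
    · rw [not_or, not_not] at hd
      obtain ⟨hdA, hdr⟩ := hd
      obtain ⟨u₀, k, z, u, s₀, s, h1, h2, h3⟩ := norm2 hP hG hI c w' q w (A₀ ++ [d])
        (fun l hl => by
        have := h l (List.mem_cons_of_mem _ hl)
        simp only [List.count_append, List.cons_append, List.count_cons, List.count_nil] at this ⊢
        omega) (List.mem_append_left _ hc)
      refine ⟨[], k + 1, fun i => Nat.casesOn i d z, fun i => Nat.casesOn i u₀ u, false,
        fun i => Nat.casesOn i s₀ s, ?_, ?_, fun A hA => ?_⟩
      · intro i hi
        cases i with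
        | zero => exact ⟨hdr, hdA⟩
        | succ i => exact ⟨(h1 i (by omega)).1, fun hm =>
            (h1 i (by omega)).2 (List.mem_append_left _ hm)⟩
      · intro i hi j hj e
        cases i with
        | zero =>
          cases j with
          | zero => rfl
          | succ j =>
            exact absurd (List.mem_append_right A₀ (by
              show z j ∈ [d]
              have e' : d = z j := e
              rw [e']
              simp)) (h1 j (by omega)).2
        | succ i =>
          cases j with
          | zero =>
            exact absurd (List.mem_append_right A₀ (by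
              show z i ∈ [d]
              have e' : z i = d := e
              rw [e']
              simp)) (h1 i (by omega)).2
          | succ j =>
            have := h2 i (by omega) j (by omega) e
            omega
      · obtain ⟨h4, h5⟩ := h3 (A ++ [d]) (fun l => by
          have := hA l
          simp only [List.count_append]
          omega)
        have e0 : D n [] = [] := rfl
        rw [nf_cons, nfs_cons, e0]
        constructor
        · simp only [List.append_assoc, List.cons_append, List.nil_append] at h4 ⊢
          exact h4
        · simp only [List.append_assoc, List.cons_append, List.nil_append] at h5 ⊢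
          exact h5

/-- the normal form as `bs` -/
theorem nfs_bs (hP : PwxStmt) (hG : Gn n β) (c : ℕ) (s : ℕ → Bool) (z : ℕ → ℕ) (u : ℕ → List ℕ)
    (m : ℕ) :
    RR β (nfs n c s z u m) (bs n (fun i => [z i]) (fun i => D n (u i)) [c] s m) := by
  unfold nfs bs
  apply rr_flatMap
  intro i _
  rw [pw_one]
  have h1 := (RR.refl (β := β) [z i]).append ((D_idem hP hG (u i)).append
    (RR.refl (β := β) (if s i then List.replicate (2 * n) c else [])))
  simpa only [List.append_assoc, List.cons_append, List.nil_append] using h1

/-- powers of a letter which occurs before may be inserted in front of the letter -/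
theorem absorb (hP : PwxStmt) (hG : Gn n β) {A : List ℕ} {c : ℕ} (hc : c ∈ A) (b : Bool)
    (R : List ℕ) :
    RR β (A ++ ((if b then List.replicate (2 * n) c else []) ++ c :: R)) (A ++ c :: R) := by
  cases b with
  | false => exact RR.refl _
  | true =>
    rw [if_pos rfl]
    have h1 := pp hP hG hc (a := 2 * n + 1) (b := 1) (by omega) (le_refl _)
      (by
        show (2 * n + 1) % n = 1 % n
        rw [Nat.add_comm, Nat.add_mul_mod_self_right]) R
    have e : List.replicate (2 * n + 1) c ++ R = List.replicate (2 * n) c ++ c :: R := by
      rw [List.replicate_succ', List.append_assoc]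
      rfl
    rw [e] at h1
    exact h1

/-- the power of `c` in front of the last letter `c` -/
theorem absorb2 (hP : PwxStmt) (hG : Gn n β) {A : List ℕ} {c : ℕ} (hc : c ∈ A) (b : Bool)
    (R : List ℕ) :
    RR β (A ++ ((if b then List.replicate (2 * n) c else []) ++ c :: R))
      (A ++ (List.replicate (2 * n) c ++ c :: R)) := by
  have h1 := absorb hP hG hc b R
  have h2 := absorb hP hG hc true R
  rw [if_pos rfl] at h2
  exact tr h1 h2.symm

/-- the words in the form `ws` -/
theorem toWs (hP : PwxStmt) (hG : Gn n β) (p q : List ℕ) (c : ℕ) (u₀ : List ℕ) (m : ℕ)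
    (z : ℕ → ℕ) (u : ℕ → List ℕ) (s₀ : Bool) (s : ℕ → Bool) (τ : List ℕ) (S : ℕ → List ℕ)
    (rest : List ℕ)
    (ht : D n (u m) ++ c :: q = τ.flatMap (fun i => S i ++ [z i]) ++ rest) :
    RR β (p ++ List.replicate (2 * n) c ++ (D n u₀ ++
      ((if s₀ then List.replicate (2 * n) c else []) ++ (nfs n c s z u (m + 1) ++ c :: q))))
      (p ++ D n u₀ ++
        (ws n [c] [] S (fun i => [z i]) (fun i => D n (u i)) s τ m ++ rest)) := by
  have hn := hG.pos
  have hcm : c ∈ List.replicate (2 * n) c := List.mem_replicate.2 ⟨by omega, rfl⟩
  -- the first power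
  have k1 : RR β (List.replicate (2 * n) c ++ (D n u₀ ++
      (if s₀ then List.replicate (2 * n) c else []))) (D n u₀ ++ List.replicate (2 * n) c) := by
    have h0 : RR β (List.replicate (2 * n) c ++ D n u₀) (D n u₀ ++ List.replicate (2 * n) c) :=
      pD hP hG (by omega) c u₀
    cases s₀ with
    | false =>
      rw [if_neg (by decide), List.append_nil]
      exact h0
    | true =>
      rw [if_pos rfl, ← List.append_assoc]
      have h1 := h0.append (RR.refl (β := β) (List.replicate (2 * n) c))
      have h4 : RR β (List.replicate (2 * n) c ++ List.replicate (2 * n) c)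
          (List.replicate (2 * n) c) := by
        rw [← List.replicate_add]
        refine p2 hP hG c (by omega) (by omega) ?_
        show (2 * n + 2 * n) % n = (2 * n) % n
        rw [← Nat.add_mul, Nat.mul_mod_left, Nat.mul_mod_left]
      have h2 := (RR.refl (β := β) (D n u₀)).append h4
      refine tr h1 ?_
      rw [List.append_assoc]
      exact h2
  have s1 := ctx k1 p (nfs n c s z u (m + 1) ++ c :: q)
  refine tr (b := p ++ (D n u₀ ++ List.replicate (2 * n) c ++ (nfs n c s z u (m + 1) ++ c :: q)))
    ?_ ?_
  · simpa only [List.append_assoc] using s1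
  rw [nfs_snoc]
  -- the last power
  have s2 := absorb2 hP hG
    (A := p ++ D n u₀ ++ List.replicate (2 * n) c ++ nfs n c s z u m ++ z m :: D n (u m)) (c := c)
    (List.mem_append_left _ (List.mem_append_left _ (List.mem_append_right _ hcm))) (s m) q
  have s3 := ctx (pD hP hG (a := 2 * n) (by omega) c (u m))
    (p ++ D n u₀ ++ List.replicate (2 * n) c ++ nfs n c s z u m ++ [z m]) (c :: q)
  refine tr (b := p ++ D n u₀ ++ List.replicate (2 * n) c ++ nfs n c s z u m ++
    z m :: D n (u m) ++ (List.replicate (2 * n) c ++ c :: q)) ?_ ?_
  · simpa only [List.append_assoc, List.cons_append, List.nil_append] using s2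
  refine tr (b := p ++ D n u₀ ++ List.replicate (2 * n) c ++ nfs n c s z u m ++ [z m] ++
    (List.replicate (2 * n) c ++ (D n (u m) ++ c :: q))) ?_ ?_
  · have := s3.symm
    simpa only [List.append_assoc, List.cons_append, List.nil_append] using this
  rw [ht]
  have s4 := ctx (nfs_bs hP hG c s z u m) (p ++ D n u₀ ++ List.replicate (2 * n) c)
    ([z m] ++ (List.replicate (2 * n) c ++ (τ.flatMap (fun i => S i ++ [z i]) ++ rest)))
  unfold ws
  rw [pw_one]
  simpa only [List.append_assoc, List.cons_append, List.nil_append] using s4

end

/-- **FFR** -/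
theorem ffr (hPWX : PwxStmt) (hFSP : FspStmt) : FfrStmt := by
  intro n β hG hI hFB p w w' q c hmul
  have hn := hG.pos
  have hcm : c ∈ List.replicate (2 * n) c := List.mem_replicate.2 ⟨by omega, rfl⟩
  obtain ⟨u₀, k, z, u, s₀, s, h1, h2, h3⟩ := norm2 hPWX hG hI c w' q w
    (p ++ List.replicate (2 * n) c)
    (fun l hl => by
      have := hmul l hl
      simpa only [List.append_assoc, List.cons_append, List.nil_append] using this)
    (List.mem_append_right _ hcm)
  obtain ⟨hL, hR⟩ := h3 (p ++ List.replicate (2 * n) c) (fun l => le_rfl)
  have hL' : RR β (p ++ (List.replicate (2 * n) c ++ (w ++ (w' ++ c :: q))))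
      (p ++ List.replicate (2 * n) c ++ (D n u₀ ++ (nf n z u k ++ c :: q))) := by
    simpa only [List.append_assoc, List.cons_append, List.nil_append] using hL
  have hR' : RR β (p ++ (List.replicate (2 * n) c ++ (w ++ (List.replicate n c ++
      (w' ++ c :: q)))))
      (p ++ List.replicate (2 * n) c ++ (D n u₀ ++
        ((if s₀ then List.replicate (2 * n) c else []) ++ (nfs n c s z u k ++ c :: q)))) := by
    simpa only [List.append_assoc, List.cons_append, List.nil_append] using hR
  refine tr hL' (tr ?_ hR'.symm)
  cases k with
  | zero =>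
    have e1 : nf n z u 0 = [] := rfl
    have e2 : nfs n c s z u 0 = [] := rfl
    rw [e1, e2, List.nil_append]
    have := absorb hPWX hG (A := p ++ List.replicate (2 * n) c ++ D n u₀) (c := c)
      (List.mem_append_left _ (List.mem_append_right _ hcm)) s₀ q
    have := this.symm
    simpa only [List.append_assoc] using this
  | succ m =>
    obtain ⟨τ, S, rest, t1, t2, t3⟩ := MWGN.H36.tail z (D n (u m) ++ c :: q)
      (Finset.range (m + 1))
      (fun i hi => List.mem_append_right _ (List.mem_cons_of_mem _
        (h1 i (Finset.mem_range.1 hi)).1))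
      (fun i hi j hj e => h2 i (Finset.mem_range.1 hi) j (Finset.mem_range.1 hj) e)
    have hτ : Tau τ m := ⟨t1, fun i => by rw [t2, Finset.mem_range]; omega⟩
    have f1 := toWs hPWX hG p q c u₀ m z u false (fun _ => false) τ S rest t3
    have f2 := toWs hPWX hG p q c u₀ m z u s₀ s τ S rest t3
    rw [nfs_false, if_neg (by decide), List.nil_append] at f1
    refine tr f1 (tr ?_ f2.symm)
    by_cases hs : ∃ i < m, s i = true
    · have g1 := hFB m τ hτ [c] [] S (fun i => [z i]) (fun i => D n (u i))
      have g2 := hFSP n β hG m (fun n _ τ hτ => hFB n τ hτ) τ hτ s hs [c] [] S (fun i => [z i])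
        (fun i => D n (u i))
      exact ctx (tr g1 g2.symm) _ _
    · have e : bs n (fun i => [z i]) (fun i => D n (u i)) [c] (fun _ => false) m =
          bs n (fun i => [z i]) (fun i => D n (u i)) [c] s m := by
        unfold bs
        apply List.flatMap_congr
        intro i hi
        have : s i = false := by
          by_contra hne
          exact hs ⟨i, List.mem_range.1 hi, by simpa using hne⟩
        rw [this]
      unfold ws
      rw [e]
      exact RR.refl _

end Pool.Agent.MWGQ.H51
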